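import Pool.Agent.MP_542436_nt.Sp.Spec

set_option autoImplicit false

namespace Pool.Agent.MP_542436_nt.H76

open Polynomial Finset Pool.Agent.MP_542436_nt.Sp

variable {R : Type} [CommRing R]

theorem cf_mul (f g : R[X][X]) (i k : ℕ) : cf (f * g) i k =
    ∑ p ∈ antidiagonal k, ∑ q ∈ antidiagonal i, cf f q.1 p.1 * cf g q.2 p.2 := by
  simp only [cf, coeff_mul, finsetSum_coeff]

theorem cf_mul_single {f g : R[X][X]} {i₁ i₂ k₁ k₂ : ℕ}
    (h : ∀ i k i' k', i + i' = i₁ + i₂ → k + k' = k₁ + k₂ → cf f i k ≠ 0 → cf g i' k' ≠ 0 →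
      i = i₁ ∧ k = k₁) : cf (f * g) (i₁ + i₂) (k₁ + k₂) = cf f i₁ k₁ * cf g i₂ k₂ := by
  rw [cf_mul, sum_eq_single_of_mem (k₁, k₂) (mem_antidiagonal.2 rfl),
    sum_eq_single_of_mem (i₁, i₂) (mem_antidiagonal.2 rfl)]
  · rintro ⟨i, i'⟩ hq hne
    by_contra h0
    have h1 := mem_antidiagonal.1 hq
    have := (h i k₁ i' k₂ h1 rfl (left_ne_zero_of_mul h0) (right_ne_zero_of_mul h0)).1
    exact hne (Prod.ext this (by simp only at h1 ⊢; omega))
  · rintro ⟨k, k'⟩ hp hne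
    refine sum_eq_zero fun q hq => ?_
    by_contra h0
    have h1 := mem_antidiagonal.1 hp
    have := (h q.1 k q.2 k' (mem_antidiagonal.1 hq) h1 (left_ne_zero_of_mul h0)
      (right_ne_zero_of_mul h0)).2
    exact hne (Prod.ext this (by simp only at h1 ⊢; omega))

theorem exists_cf {f : R[X][X]} (hf : f ≠ 0) : ∃ i k, cf f i k ≠ 0 := by
  by_contra h
  push Not at h
  exact hf (by ext k i; simpa [cf] using h i k)

theorem dS_le {f : R[X][X]} {m : ℕ} : dS f ≤ m ↔ ∀ i k, cf f i k ≠ 0 → i ≤ m := by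
  rw [dS, Finset.sup_le_iff]
  refine ⟨fun h i k h0 => (le_natDegree_of_ne_zero h0).trans (h k (mem_support_iff.2 fun e =>
    h0 (by simp [cf, e]))), fun h k _ => natDegree_le_iff_coeff_eq_zero.2 fun i hi => ?_⟩
  by_contra h0
  exact absurd (h i k h0) (by omega)

theorem exists_top {f : R[X][X]} (hf : f ≠ 0) : ∃ k, cf f (dS f) k ≠ 0 := by
  by_contra h
  push Not at h
  obtain ⟨i, k, h0⟩ := exists_cf hf
  have key : ∀ i k, cf f i k ≠ 0 → i < dS f := fun i k h1 =>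
    lt_of_le_of_ne (dS_le.1 le_rfl i k h1) fun e => h1 (e ▸ h k)
  have h1 := key i k h0
  have h2 : dS f ≤ dS f - 1 := dS_le.2 fun i k h1 => by have := key i k h1; omega
  omega

theorem dS_mul [IsDomain R] {f g : R[X][X]} (hf : f ≠ 0) (hg : g ≠ 0) :
    dS (f * g) = dS f + dS g := by
  classical
  refine le_antisymm (dS_le.2 fun i k h => ?_) (dS_le.1 le_rfl _
    (Nat.find (exists_top hf) + Nat.find (exists_top hg)) ?_)
  · rw [cf_mul] at h
    obtain ⟨p, -, h⟩ := exists_ne_zero_of_sum_ne_zero h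
    obtain ⟨q, hq, h⟩ := exists_ne_zero_of_sum_ne_zero h
    rw [← mem_antidiagonal.1 hq]
    exact add_le_add (dS_le.1 le_rfl _ _ (left_ne_zero_of_mul h))
      (dS_le.1 le_rfl _ _ (right_ne_zero_of_mul h))
  · rw [cf_mul_single]
    · exact mul_ne_zero (Nat.find_spec (exists_top hf)) (Nat.find_spec (exists_top hg))
    · intro i k i' k' h1 h2 h3 h4
      have e1 := dS_le.1 le_rfl _ _ h3
      have e2 := dS_le.1 le_rfl _ _ h4
      obtain rfl : i = dS f := by omega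
      obtain rfl : i' = dS g := by omega
      have e3 := Nat.find_min' (exists_top hf) h3
      have e4 := Nat.find_min' (exists_top hg) h4
      omega

theorem dg_iff (m n : ℕ) (f : R[X][X]) : Dg (m + 1) (n + 1) f ↔ dS f ≤ m ∧ f.natDegree ≤ n := by
  rw [dS_le, natDegree_le_iff_coeff_eq_zero]
  refine ⟨fun h => ⟨fun i k h0 => Nat.lt_succ_iff.1 (h i k h0).1, fun k hk => ?_⟩,
    fun h i k h0 => ⟨Nat.lt_succ_iff.2 (h.1 i k h0), ?_⟩⟩
  · ext i
    by_contra h0
    exact absurd (h i k h0).2 (by omega)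
  · by_contra hk
    exact h0 (by simp [cf, h.2 k (by omega)])

theorem coeff_ds (f : R[X][X]) (k : ℕ) : (ds f).coeff k = derivative (f.coeff k) := by
  rw [ds, Polynomial.sum, finsetSum_coeff, sum_eq_single k]
  · simp
  · intro b _ hb
    simp [coeff_monomial, hb]
  · intro h
    simp [notMem_support_iff.1 h]

theorem cf_up (L : Type) [CommRing L] (f : ℤ[X][X]) (i k : ℕ) :
    cf (up L f) i k = ((cf f i k : ℤ) : L) := by
  simp [cf, up]

theorem eq_sum {p : R[X]} {N : ℕ} (h : ∀ c, p.coeff c ≠ 0 → c < N) :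
    p = ∑ c ∈ range N, monomial c (p.coeff c) := by
  ext k
  simp only [finsetSum_coeff, coeff_monomial, sum_ite_eq', mem_range]
  split_ifs with hk
  · rfl
  · by_contra h0
    exact hk (h k h0)

theorem taylor_coeff_sum {p : R[X]} {N : ℕ} (h : ∀ c, p.coeff c ≠ 0 → c < N) (a : R) (j : ℕ) :
    (taylor a p).coeff j = ∑ c ∈ range N, p.coeff c * ((c.choose j : R) * a ^ (c - j)) := by
  conv_lhs => rw [eq_sum h]
  simp only [map_sum, taylor_monomial, finsetSum_coeff, coeff_C_mul, coeff_X_add_C_pow, mul_comm]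

theorem eval_sum {p : R[X]} {N : ℕ} (h : ∀ c, p.coeff c ≠ 0 → c < N) (a : R) :
    p.eval a = ∑ c ∈ range N, p.coeff c * a ^ c := by
  conv_lhs => rw [eq_sum h]
  simp only [eval_finsetSum, eval_monomial]

theorem Dg.out {M N : ℕ} {f : R[X][X]} (h : Dg M N f) (c : ℕ) (hc : f.coeff c ≠ 0) : c < N := by
  by_contra hN
  exact hc (by
    ext i
    by_contra h0
    exact hN (h i c h0).2)

theorem evalEval_sum {M N : ℕ} {f : R[X][X]} (h : Dg M N f) (s t : R) :
    f.evalEval s t = ∑ i ∈ range M, ∑ k ∈ range N, cf f i k * s ^ i * t ^ k := by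
  rw [evalEval, eval_sum (Dg.out h), eval_finsetSum, sum_comm]
  refine sum_congr rfl fun k _ => ?_
  rw [eval_mul, eval_pow, eval_C, eval_sum (N := M) fun c hc => (h c k hc).1, sum_mul]
  rfl

/-- Translation of the point to the origin. -/
noncomputable def sh (ω θ : R) (f : R[X][X]) : R[X][X] :=
  (taylor (C θ) f).map (taylorAlgHom ω).toRingHom

theorem cf_sh (ω θ : R) (f : R[X][X]) (i j : ℕ) :
    cf (sh ω θ f) i j = (taylor ω ((taylor (C θ) f).coeff j)).coeff i := by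
  rw [cf, sh, coeff_map]; rfl

theorem sh_mul (ω θ : R) (f g : R[X][X]) : sh ω θ (f * g) = sh ω θ f * sh ω θ g := by
  rw [sh, taylor_mul, Polynomial.map_mul]; rfl

theorem sh_ne {ω θ : R} {f : R[X][X]} (hf : f ≠ 0) : sh ω θ f ≠ 0 := fun h =>
  hf (taylor_injective (C θ) (by
    rw [map_zero]
    exact (Polynomial.map_eq_zero_iff (taylor_injective ω)).1 h))

theorem ord_sh {ω θ : R} {r : ℕ} {f : R[X][X]} :
    Ord ω θ r f ↔ ∀ i j, i + 2 * j < r → cf (sh ω θ f) i j = 0 := by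
  simp only [Sp.Ord, X_sub_C_pow_dvd_iff, X_pow_dvd_iff, cf_sh, taylor_apply]
  exact ⟨fun h i j hij => h j i (by omega), fun h j i hij => h i j (by omega)⟩

theorem cf_sh_tc {M N : ℕ} {f : R[X][X]} (h : Dg M N f) (ω θ : R) (i j : ℕ) :
    cf (sh ω θ f) i j = tc M N ω θ f i j := by
  rw [cf_sh, taylor_coeff_sum (Dg.out h), map_sum, finsetSum_coeff, tc, sum_comm]
  refine sum_congr rfl fun c _ => ?_
  rw [← C_pow, ← C_eq_natCast, ← C_mul, taylor_mul, taylor_C, coeff_mul_C,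
    taylor_coeff_sum (N := M) fun a ha => (h a c ha).1, sum_mul]
  rfl

theorem dg_sh {M N : ℕ} {f : R[X][X]} (h : Dg M N f) (ω θ : R) : Dg M N (sh ω θ f) := by
  intro i k h0
  rw [cf_sh_tc h, tc] at h0
  obtain ⟨a, ha, h0⟩ := exists_ne_zero_of_sum_ne_zero h0
  obtain ⟨c, hc, h0⟩ := exists_ne_zero_of_sum_ne_zero h0
  rw [mem_range] at ha hc
  constructor
  · by_contra hi
    exact h0 (by simp [Nat.choose_eq_zero_of_lt (show a < i by omega)])
  · by_contra hi
    exact h0 (by simp [Nat.choose_eq_zero_of_lt (show c < k by omega)])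

theorem evalEval_sh (ω θ s t : R) (f : R[X][X]) :
    (sh ω θ f).evalEval (s - ω) (t - θ) = f.evalEval s t := by
  have e : (C (t - θ) : R[X]) = (taylorAlgHom ω).toRingHom (C (t - θ)) := (taylor_C _ _).symm
  rw [evalEval, sh, e, eval_map, eval₂_at_apply, taylor_eval, ← C_add, sub_add_cancel]
  exact (taylor_eval _ _ _).trans (by rw [sub_add_cancel])

theorem ord_exact {ω θ : R} {g : R[X][X]} (hg : g ≠ 0) :
    ∃ r, Ord ω θ r g ∧ ¬ Ord ω θ (r + 1) g := by
  classical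
  obtain ⟨i, j, h⟩ := exists_cf (sh_ne (ω := ω) (θ := θ) hg)
  have hex : ∃ r, ¬ Ord ω θ (r + 1) g := ⟨i + 2 * j, fun h' => h (ord_sh.1 h' i j (by omega))⟩
  refine ⟨Nat.find hex, ord_sh.2 fun a b hab => ?_, Nat.find_spec hex⟩
  exact ord_sh.1 (not_not.1 (Nat.find_min hex hab)) a b (by omega)

theorem exists_low {ω θ : R} {g : R[X][X]} {r : ℕ} (h : Ord ω θ r g) (h' : ¬ Ord ω θ (r + 1) g) :
    ∃ i₁ j₁, i₁ + 2 * j₁ = r ∧ cf (sh ω θ g) i₁ j₁ ≠ 0 ∧
      ∀ i j, cf (sh ω θ g) i j ≠ 0 → r ≤ i + 2 * j ∧ (i + 2 * j = r → j₁ ≤ j) := by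
  classical
  rw [ord_sh] at h h'
  push Not at h'
  obtain ⟨i, j, hij, h0⟩ := h'
  have hr : ∀ i j, cf (sh ω θ g) i j ≠ 0 → r ≤ i + 2 * j := fun i j h1 =>
    not_lt.1 fun h2 => h1 (h i j h2)
  have hex : ∃ j i, i + 2 * j = r ∧ cf (sh ω θ g) i j ≠ 0 :=
    ⟨j, i, by have := hr i j h0; omega, h0⟩
  obtain ⟨i₁, h1, h2⟩ := Nat.find_spec hex
  exact ⟨i₁, _, h1, h2, fun i j h3 => ⟨hr i j h3, fun h4 => Nat.find_min' hex ⟨i, h4, h3⟩⟩⟩

theorem ord_mono {ω θ : R} {r r' : ℕ} {f : R[X][X]} (h : r' ≤ r) (hf : Ord ω θ r f) :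
    Ord ω θ r' f := fun j => (pow_dvd_pow _ (by omega)).trans (hf j)

theorem ord_cancel [IsDomain R] {ω θ : R} {r r' : ℕ} {g h : R[X][X]} (h1 : Ord ω θ r' g)
    (h2 : ¬ Ord ω θ (r' + 1) g) (h3 : Ord ω θ r (g * h)) : Ord ω θ (r - r') h := by
  by_cases h0 : h = 0
  · intro j; simp [h0]
  obtain ⟨e, h4, h5⟩ := ord_exact (ω := ω) (θ := θ) h0
  refine ord_mono ?_ h4
  obtain ⟨i₁, j₁, e1, n1, m1⟩ := exists_low h1 h2
  obtain ⟨i₂, j₂, e2, n2, m2⟩ := exists_low h4 h5
  by_contra hc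
  refine mul_ne_zero n1 n2 ?_
  rw [← cf_mul_single, ← sh_mul]
  · exact ord_sh.1 h3 _ _ (by omega)
  · intro i j i' j' a1 a2 a3 a4
    have b1 := m1 i j a3
    have b2 := m2 i' j' a4
    omega

theorem taylor_ds (θ : R) (f : R[X][X]) (j : ℕ) :
    (taylor (C θ) (ds f)).coeff j = derivative ((taylor (C θ) f).coeff j) := by
  have h : ∀ c, f.coeff c ≠ 0 → c < f.natDegree + 1 := fun c hc =>
    Nat.lt_succ_iff.2 (le_natDegree_of_ne_zero hc)
  rw [taylor_coeff_sum h, taylor_coeff_sum (N := f.natDegree + 1) fun c hc => h c fun e =>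
    hc (by rw [coeff_ds, e, map_zero]), derivative_sum]
  refine sum_congr rfl fun c _ => ?_
  rw [← C_pow, ← C_eq_natCast, ← C_mul, derivative_mul, derivative_C, mul_zero, add_zero, coeff_ds]

theorem base : BaseStmt where
  dS_mul := fun _ _ _ _ _ hf hg => dS_mul hf hg
  dg_iff := fun _ _ => dg_iff
  dg_zero := fun _ _ M N f h hf => by
    by_contra h0
    obtain ⟨i, k, h1⟩ := exists_cf h0
    have := hf i k h1
    omega
  coeff_ds := fun _ _ => coeff_ds
  ds_mul := fun _ _ f g => by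
    refine Polynomial.ext fun k => ?_
    simp only [coeff_add, coeff_ds, coeff_mul, derivative_sum, derivative_mul, sum_add_distrib]
  cf_up := cf_up
  up_ds := fun L _ f => by
    refine Polynomial.ext fun k => ?_
    simp only [up, coeff_ds, coeff_map, coe_mapRingHom, derivative_map]
  up_map := fun L L' _ _ σ f => by
    ext k i
    simp [up]
  hval_eq := fun L _ m n f x y a b hf hy hb => by
    rw [evalEval_sum (M := m + 1) (N := n + 1) fun i k h => hf i k fun e => h (by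
      rw [cf_up, e, Int.cast_zero]), hval, mul_sum]
    push_cast
    refine sum_congr rfl fun i hi => ?_
    rw [mul_sum]
    refine sum_congr rfl fun k hk => ?_
    obtain ⟨i', rfl⟩ := Nat.exists_eq_add_of_le (Nat.lt_succ_iff.1 (mem_range.1 hi))
    obtain ⟨k', rfl⟩ := Nat.exists_eq_add_of_le (Nat.lt_succ_iff.1 (mem_range.1 hk))
    rw [cf_up, Nat.add_sub_cancel_left, Nat.add_sub_cancel_left, div_pow, div_pow, pow_add, pow_add]
    field_simp
  ord_mono := fun _ _ _ _ _ _ _ => ord_mono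
  ord_sub := fun _ _ _ _ _ f g hf hg j => by
    rw [map_sub, coeff_sub]
    exact dvd_sub (hf j) (hg j)
  ord_mul := fun _ _ ω θ r r' f g hf hg => ord_sh.2 fun i j hij => by
    rw [sh_mul, cf_mul]
    refine sum_eq_zero fun p hp => sum_eq_zero fun q hq => ?_
    rw [HasAntidiagonal.mem_antidiagonal] at hp hq
    by_cases h : q.1 + 2 * p.1 < r
    · rw [ord_sh.1 hf _ _ h, zero_mul]
    · rw [ord_sh.1 hg q.2 p.2 (by omega), mul_zero]
  ord_cancel := fun _ _ _ _ _ _ _ _ => ord_cancel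
  ord_exact := fun _ _ _ _ _ => ord_exact
  ord_ds := fun _ _ ω θ r f hf j => by
    rw [taylor_ds, show r - 1 - 2 * j = r - 2 * j - 1 by omega]
    exact pow_sub_one_dvd_derivative_of_pow_dvd (hf j)
  ord_map := fun L L' _ _ σ ω θ r f hf j => by
    have h1 := Polynomial.map_dvd σ (hf j)
    have h2 := map_taylor f (C θ) (mapRingHom σ)
    rw [coe_mapRingHom, map_C] at h2
    rw [← h2, coeff_map, coe_mapRingHom]
    simpa using h1
  ord_iff := fun _ _ M N ω θ r f hf => by simp only [ord_sh, cf_sh_tc hf]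
  expand := fun _ _ M N ω θ s t f hf => by
    rw [← evalEval_sh ω θ, evalEval_sum (dg_sh hf ω θ)]
    simp only [cf_sh_tc hf]

end Pool.Agent.MP_542436_nt.H76
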