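import Pool.Agent.MP_542436_nt.H76.Base

set_option autoImplicit false

namespace Pool.Agent.MP_542436_nt.H76

open Polynomial Finset Module NumberField Pool.Agent.MP_542436_nt.Sp

/-- The coefficient vector. -/
noncomputable def cv (M N : ℕ) : ℂ[X][X] →ₗ[ℂ] (Fin M × Fin N → ℂ) where
  toFun f p := cf f p.1 p.2
  map_add' f g := by ext p; simp [cf]
  map_smul' c f := by ext p; simp [cf]

theorem cv_inj {ι : Type} (M N : ℕ) (r : ι → ℕ) (ω θ : ι → ℂ) :
    Function.Injective ((cv M N).domRestrict (Vs M N r ω θ)) := by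
  refine (injective_iff_map_eq_zero _).2 fun f h => Subtype.ext ?_
  by_contra h0
  obtain ⟨i, k, h1⟩ := exists_cf h0
  exact h1 (congrFun h (⟨i, (f.2.1 i k h1).1⟩, ⟨k, (f.2.1 i k h1).2⟩))

instance vs_fin {ι : Type} (M N : ℕ) (r : ι → ℕ) (ω θ : ι → ℂ) :
    Module.Finite ℂ (Vs M N r ω θ) := Module.Finite.of_injective _ (cv_inj M N r ω θ)

theorem vs_triv {ι : Type} (M N : ℕ) (r : ι → ℕ) (ω θ : ι → ℂ) :
    finrank ℂ (Vs M N r ω θ) ≤ M * N := by
  simpa using LinearMap.finrank_le_finrank_of_injective (cv_inj M N r ω θ)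

theorem rank_step {V U : Submodule ℂ ℂ[X][X]} [Module.Finite ℂ V] [Module.Finite ℂ U]
    (φ : ℂ[X][X] →ₗ[ℂ] ℂ[X]) (g : ℂ[X][X]) {P : ℂ[X]} (hP : P.Monic) {N : ℕ}
    (h1 : ∀ f ∈ V, P ∣ φ f ∧ ∀ c, (φ f).coeff c ≠ 0 → c < N)
    (h2 : ∀ f ∈ V, φ f = 0 → ∃ h ∈ U, g * h = f) :
    finrank ℂ V ≤ (N - P.natDegree) + finrank ℂ U := by
  have := Module.Finite.of_basis (degreeLT.basis ℂ (N - P.natDegree))
  refine (LinearMap.finrank_range_add_finrank_ker (K := ℂ) (V := V) (V₂ := ℂ[X])
    (φ.domRestrict V)).symm.trans_le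
    (add_le_add ?_ ?_)
  · have e : LinearMap.range (φ.domRestrict V) ≤
        (degreeLT ℂ (N - P.natDegree)).map (LinearMap.mulLeft ℂ P) := by
      rintro _ ⟨f, rfl⟩
      obtain ⟨⟨q, hq⟩, h3⟩ := h1 f f.2
      refine ⟨q, mem_degreeLT.2 ?_, hq.symm⟩
      by_cases h0 : q = 0
      · simp [h0]
      have h4 := h3 _ (by rw [hq]; exact leadingCoeff_ne_zero.2 (mul_ne_zero hP.ne_zero h0))
      rw [hP.natDegree_mul' h0] at h4
      rw [degree_eq_natDegree h0]
      exact_mod_cast (by omega : q.natDegree < N - P.natDegree)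
    refine (Submodule.finrank_mono e).trans ((Submodule.finrank_map_le _ _).trans ?_)
    rw [finrank_eq_card_basis (degreeLT.basis ℂ (N - P.natDegree)), Fintype.card_fin]
  · rw [← Submodule.finrank_map_subtype_eq]
    refine (Submodule.finrank_mono (t := U.map (LinearMap.mulLeft ℂ g)) ?_).trans
      (Submodule.finrank_map_le _ _)
    rintro _ ⟨f, hf, rfl⟩
    exact h2 f f.2 hf

theorem dg_cancel {M N a b : ℕ} {g h : ℂ[X][X]} (hg : g ≠ 0) (ha : a ≤ dS g)
    (hb : b ≤ g.natDegree) (hf : Dg (M + a) (N + b) (g * h)) : Dg M N h := by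
  intro i k h0
  have hh : h ≠ 0 := fun e => h0 (by simp [e, cf])
  obtain ⟨k', h1⟩ := exists_top (mul_ne_zero hg hh)
  have e1 := (hf _ _ h1).1
  have e2 := Dg.out hf _ (leadingCoeff_ne_zero.2 (mul_ne_zero hg hh))
  rw [dS_mul hg hh] at e1
  rw [natDegree_mul hg hh] at e2
  have e3 := dS_le.1 le_rfl i k h0
  have e4 : k ≤ h.natDegree := le_natDegree_of_ne_zero fun e => h0 (by simp [e, cf])
  omega

theorem ord_C (ω θ : ℂ) (e : ℕ) (u : ℂ[X]) : Ord ω θ e (C u) ↔ (X - C ω) ^ e ∣ u := by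
  refine ⟨fun h => by simpa using h 0, fun h j => ?_⟩
  rw [taylor_C, coeff_C]
  split_ifs with hj
  · simpa [hj] using h
  · exact dvd_zero _

theorem ord_zero (ω θ : ℂ) (f : ℂ[X][X]) : Ord ω θ 0 f := fun j => by simp

open Classical in
theorem vert {ι : Type} [Fintype ι] (M N : ℕ) (r : ι → ℕ) (ω θ : ι → ℂ) (a : ℂ)
    (hθ : Function.Injective θ) : finrank ℂ (Vs (M + 1) N r ω θ) ≤
      (N - ∑ i, if ω i = a then (r i + 1) / 2 else 0) +
        finrank ℂ (Vs M N (fun i => if ω i = a then r i - 1 else r i) ω θ) := by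
  have hm : ∀ i, ((X - C (θ i)) ^ (if ω i = a then (r i + 1) / 2 else 0)).Monic := fun i =>
    (monic_X_sub_C _).pow _
  have key := rank_step (V := Vs (M + 1) N r ω θ)
    (U := Vs M N (fun i => if ω i = a then r i - 1 else r i) ω θ)
    (mapAlgHom (aeval a : ℂ[X] →ₐ[ℂ] ℂ)).toLinearMap (C (X - C a))
    (monic_prod_of_monic univ _ fun i _ => hm i) (N := N) ?_ ?_
  · rw [natDegree_prod_of_monic _ _ fun i _ => hm i] at key
    simpa only [natDegree_pow, natDegree_X_sub_C, mul_one] using key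
  · intro f hf
    change _ ∣ f.map (evalRingHom a) ∧ ∀ c, (f.map (evalRingHom a)).coeff c ≠ 0 → c < N
    refine ⟨Fintype.prod_dvd_of_coprime (fun i j hij =>
      (pairwise_coprime_X_sub_C hθ hij).pow) fun i => ?_, fun c hc => Dg.out hf.1 c fun e =>
        hc (by simp [e])⟩
    split_ifs with h
    swap
    · simp
    rw [X_sub_C_pow_dvd_iff, X_pow_dvd_iff]
    intro j hj
    have h2 := map_taylor f (C (θ i)) (evalRingHom a)
    rw [coe_evalRingHom, eval_C] at h2
    rw [← taylor_apply, ← h2, coeff_map]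
    exact dvd_iff_isRoot.1 ((dvd_pow_self _ (by omega)).trans (h ▸ hf.2 i j))
  · intro f hf h0
    have h1 : f.map (evalRingHom a) = 0 := h0
    obtain ⟨h, rfl⟩ := (C_dvd_iff_dvd_coeff (X - C a) f).2 fun k =>
      dvd_iff_isRoot.2 (by simpa using congrArg (coeff · k) h1)
    refine ⟨h, ⟨dg_cancel (a := 1) (b := 0) (C_ne_zero.2 (X_sub_C_ne_zero a))
      (dS_le.1 le_rfl 1 0 (by simp [cf])) (Nat.zero_le _) hf.1, fun i => ?_⟩, rfl⟩
    dsimp only
    split_ifs with e
    · refine ord_cancel ((ord_C _ _ _ _).2 (by rw [e, pow_one])) (fun h2 => ?_) (hf.2 i)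
      simpa using natDegree_le_of_dvd ((ord_C _ _ _ _).1 h2) (X_sub_C_ne_zero a)
    · refine ord_cancel (r' := 0) (ord_zero _ _ _) (fun h2 => e ?_) (hf.2 i)
      simpa [dvd_iff_isRoot, sub_eq_zero] using (ord_C _ _ _ _).1 h2

open Classical in
theorem horiz {ι : Type} (M N : ℕ) (r : ι → ℕ) (ω θ : ι → ℂ) (i0 : ι)
    (hθ : Function.Injective θ) : finrank ℂ (Vs M (N + 1) r ω θ) ≤
      (M - r i0) + finrank ℂ (Vs M N (fun i => if i = i0 then r i - 2 else r i) ω θ) := by
  have key := rank_step (V := Vs M (N + 1) r ω θ)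
    (U := Vs M N (fun i => if i = i0 then r i - 2 else r i) ω θ)
    ((leval (C (θ i0))).restrictScalars ℂ) (X - C (C (θ i0)))
    ((monic_X_sub_C (ω i0)).pow (r i0)) (N := M) ?_ ?_
  · simpa using key
  · intro f hf
    change _ ∣ f.eval (C (θ i0)) ∧ ∀ c, (f.eval (C (θ i0))).coeff c ≠ 0 → c < M
    refine ⟨by simpa using hf.2 i0 0, fun c hc => ?_⟩
    rw [eval_sum (Dg.out hf.1), finsetSum_coeff] at hc
    obtain ⟨k, -, hk⟩ := exists_ne_zero_of_sum_ne_zero hc
    rw [← C_pow, coeff_mul_C] at hk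
    exact (hf.1 c k (left_ne_zero_of_mul hk)).1
  · intro f hf h0
    obtain ⟨h, rfl⟩ := dvd_iff_isRoot.2 (show f.IsRoot (C (θ i0)) from h0)
    refine ⟨h, ⟨dg_cancel (a := 0) (b := 1) (X_sub_C_ne_zero _) (Nat.zero_le _)
      (natDegree_X_sub_C _).ge hf.1, fun i => ?_⟩, rfl⟩
    dsimp only
    split_ifs with e
    · subst e
      refine ord_cancel (fun j => ?_) (fun h2 => ?_) (hf.2 i)
      · rcases j with _ | j
        · simp
        · simp [show 2 - 2 * (j + 1) = 0 by omega]
      · simpa [dvd_iff_isRoot] using h2 1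
    · refine ord_cancel (r' := 0) (ord_zero _ _ _) (fun h2 => e (hθ ?_)) (hf.2 i)
      simpa [dvd_iff_isRoot, sub_eq_zero] using h2 0

theorem hor (_ : BaseStmt) : HorStmt where
  fin := fun _ => vs_fin
  triv := fun _ => vs_triv
  mono := fun _ _ _ _ _ _ _ h =>
    Submodule.finrank_mono fun _ hf => ⟨hf.1, fun i => ord_mono (h i) (hf.2 i)⟩
  vert := fun _ _ => vert
  hor := fun _ => horiz

section Cap

variable {ι : Type} [Fintype ι] {ω θ : ι → ℂ} (hω : Function.Injective ω)
  (hθ : Function.Injective θ)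

/-- The dimension. -/
noncomputable def rk (ω θ : ι → ℂ) (M N : ℕ) (r : ι → ℕ) : ℕ := finrank ℂ (Vs M N r ω θ)

include hθ in
theorem hor_all (M N r : ℕ) : rk ω θ M N (fun _ => r) ≤
    Fintype.card ι * (M - r) + rk ω θ M (N - Fintype.card ι) (fun _ => r - 2) := by
  classical
  have key : ∀ s : Finset ι, rk ω θ M N (fun _ => r) ≤ s.card * (M - r) +
      rk ω θ M (N - s.card) (fun i => if i ∈ s then r - 2 else r) := by
    intro s
    induction s using Finset.induction_on with
    | empty => simp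
    | insert i0 s h ih =>
      refine ih.trans ?_
      rw [card_insert_of_notMem h, add_mul, one_mul, add_assoc, ← Nat.sub_sub]
      refine Nat.add_le_add_left ?_ _
      rcases hN : N - s.card with _ | N'
      · exact (vs_triv _ _ _ _ _).trans (by simp)
      · refine (horiz M N' (fun i => if i ∈ s then r - 2 else r) ω θ i0 hθ).trans_eq ?_
        rw [if_neg h]
        refine congrArg (fun x => M - r + rk ω θ M N' x) (funext fun i => ?_)
        by_cases e : i = i0 <;> simp [e, h]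
  simpa using key univ

include hω hθ in
theorem vert_all (M N r : ℕ) : rk ω θ M N (fun _ => r) ≤
    Fintype.card ι * (N - (r + 1) / 2) + rk ω θ (M - Fintype.card ι) N (fun _ => r - 1) := by
  classical
  have key : ∀ s : Finset ι, rk ω θ M N (fun _ => r) ≤ s.card * (N - (r + 1) / 2) +
      rk ω θ (M - s.card) N (fun i => if i ∈ s then r - 1 else r) := by
    intro s
    induction s using Finset.induction_on with
    | empty => simp
    | insert i0 s h ih =>
      refine ih.trans ?_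
      rw [card_insert_of_notMem h, add_mul, one_mul, add_assoc, ← Nat.sub_sub]
      refine Nat.add_le_add_left ?_ _
      rcases hM : M - s.card with _ | M'
      · exact (vs_triv _ _ _ _ _).trans (by simp)
      · refine (vert M' N (fun i => if i ∈ s then r - 1 else r) ω θ (ω i0) hθ).trans_eq ?_
        rw [sum_eq_single i0 (fun b _ hb => if_neg fun e => hb (hω e)) (by simp), if_pos rfl,
          if_neg h]
        refine congrArg (fun x => N - (r + 1) / 2 + rk ω θ M' N x) (funext fun i => ?_)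
        by_cases e : i = i0 <;> simp [e, h, hω.eq_iff]
  simpa using key univ

include hω hθ in
theorem cap_rank (k : ℕ) : ∀ M N r : ℕ,
    rk ω θ M N (fun _ => r) ≤ capF (Fintype.card ι) k M N r := by
  induction k with
  | zero => exact fun M N r => vs_triv _ _ _ _ _
  | succ k ih =>
    intro M N r
    refine le_min (vs_triv _ _ _ _ _) ?_
    split_ifs
    · exact (hor_all hθ M N r).trans (Nat.add_le_add_left (ih _ _ _) _)
    · exact (vert_all hω hθ M N r).trans (Nat.add_le_add_left (ih _ _ _) _)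

end Cap

theorem cap (hB : BaseStmt) : CapStmt := by
  intro K _ _ d θ ω hθ hω M N r k f hf h
  have h1 : LinearIndependent ℤ fun i (p : Fin M × Fin N) => cf (f i) p.1 p.2 := by
    rw [Fintype.linearIndependent_iff] at hf ⊢
    refine fun g hg => hf g ?_
    ext b a
    by_cases hab : a < M ∧ b < N
    · simpa [cf] using congrFun hg (⟨a, hab.1⟩, ⟨b, hab.2⟩)
    · have : ∀ i, ((f i).coeff b).coeff a = 0 := fun i => by
        by_contra h0
        exact hab ((h i).1 a b h0)
      simp [this]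
  let F : Fin k → Vs M N (fun _ : K →+* ℂ => r) (fun σ => σ ω) fun σ => σ θ := fun i =>
    ⟨up ℂ (f i), fun a b h0 => (h i).1 a b fun e => h0 (by rw [cf_up, e, Int.cast_zero]),
      fun σ => hB.up_map K ℂ σ (f i) ▸ hB.ord_map K ℂ σ ω θ r _ (h i).2⟩
  have h2 : LinearIndependent ℂ F := by
    refine LinearIndependent.of_comp ((cv M N).domRestrict _) ?_
    have e : (cv M N).domRestrict _ ∘ F =
        fun i => algebraMap ℤ ℂ ∘ fun p : Fin M × Fin N => cf (f i) p.1 p.2 :=
      funext fun i => funext fun p => cf_up ℂ (f i) p.1 p.2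
    rw [e]
    exact (linearIndependent_algebraMap_comp_iff (S := ℂ)).2 h1
  have h3 := h2.fintype_card_le_finrank.trans (cap_rank hω hθ.gen r M N r)
  rwa [Fintype.card_fin, Embeddings.card, hθ.rk] at h3

end Pool.Agent.MP_542436_nt.H76
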